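import Pool.Agent.Helper57.BG.Stmts

/-!
# (A'), Type II: block G12, opening the square
-/

open Finset

namespace Pool.Agent.Helper5.AP

open Pool.Agent.Helper57.BG

theorem fj_nonneg5 (Y m : ℝ) : 0 ≤ fj Y m := sq_nonneg _

theorem fj_le_one5 (Y m : ℝ) : fj Y m ≤ 1 := by
  unfold fj
  rw [sq_le_one_iff_abs_le_one]
  exact Real.abs_sinc_le_one _

theorem fj_lower5 (Y m : ℝ) (hY : 0 < Y) (hm : |m| ≤ Y / 2) : 4 / Real.pi ^ 2 ≤ fj Y m := by
  have hpi := Real.pi_pos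
  have key : ∀ x : ℝ, 0 ≤ x → x ≤ Real.pi / 2 → 2 / Real.pi ≤ Real.sinc x := by
    intro x hx0 hx1
    rcases hx0.eq_or_lt with h | h
    · rw [← h, Real.sinc_zero, div_le_one hpi]
      linarith [Real.pi_gt_three]
    · rw [Real.sinc_of_ne_zero h.ne', le_div_iff₀ h]
      exact Real.mul_le_sin hx0 hx1
  have h1 : 2 / Real.pi ≤ Real.sinc (Real.pi * m / Y) := by
    rcases le_or_gt 0 m with h | h
    · apply key
      · positivity
      · rw [abs_of_nonneg h] at hm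
        rw [div_le_iff₀ hY]
        nlinarith
    · rw [← Real.sinc_neg, show -(Real.pi * m / Y) = Real.pi * (-m) / Y by ring]
      rw [abs_of_neg h] at hm
      have h0 : 0 ≤ -m := by linarith
      apply key
      · positivity
      · rw [div_le_iff₀ hY]
        nlinarith
  unfold fj
  calc 4 / Real.pi ^ 2 = (2 / Real.pi) ^ 2 := by rw [div_pow]; norm_num
    _ ≤ (Real.sinc (Real.pi * m / Y)) ^ 2 := pow_le_pow_left₀ (by positivity) h1 2

theorem fj_summable5 {Y : ℝ} (hY : 0 < Y) : Summable fun m : ℤ => fj Y m := by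
  have hpi := Real.pi_pos
  have h1 : Summable fun m : ℤ => (Y / Real.pi) ^ 2 * (1 / (m : ℝ) ^ 2) + (if m = 0 then (1 : ℝ) else 0) :=
    ((Real.summable_one_div_int_pow.2 (by norm_num)).mul_left _).add (hasSum_ite_eq 0 (1 : ℝ)).summable
  refine Summable.of_nonneg_of_le (fun m => fj_nonneg5 _ _) (fun m => ?_) h1
  by_cases hm : m = 0
  · subst hm
    rw [if_pos rfl]
    exact (fj_le_one5 Y _).trans (le_add_of_nonneg_left (mul_nonneg (sq_nonneg _)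
      (div_nonneg zero_le_one (sq_nonneg _))))
  · rw [if_neg hm, add_zero]
    have hm0 : ((m : ℤ) : ℝ) ≠ 0 := by exact_mod_cast hm
    have hx : Real.pi * (m : ℝ) / Y ≠ 0 := by positivity
    unfold fj
    rw [Real.sinc_of_ne_zero hx, div_pow]
    have h2 : Real.sin (Real.pi * (m : ℝ) / Y) ^ 2 ≤ 1 := Real.sin_sq_le_one _
    calc Real.sin (Real.pi * (m : ℝ) / Y) ^ 2 / (Real.pi * (m : ℝ) / Y) ^ 2 ≤ 1 / (Real.pi * (m : ℝ) / Y) ^ 2 :=
          div_le_div_of_nonneg_right h2 (sq_nonneg _)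
      _ = (Y / Real.pi) ^ 2 * (1 / (m : ℝ) ^ 2) := by
          field_simp

set_option linter.unusedVariables false in
open Classical in
/-- **G12.** opening the square -/
theorem open1 (Y M : ℝ) (hM : 1 ≤ M) (hY : 4 * M ≤ Y) (k : ℤ) (q1 : ℕ) (h1 : 0 < q1)
    {ι : Type*} (I : Finset ι) (c : ι → ℂ) (q2 l : ι → ℕ) (h2 : ∀ i ∈ I, 0 < q2 i) (hl : ∀ i ∈ I, 0 < l i) :
    ∑ m ∈ Ioc ⌊M⌋₊ ⌊2 * M⌋₊, ‖∑ i ∈ I, c i *
        ((if ((q1 * q2 i : ℕ) : ℤ) ∣ (m : ℤ) * l i - k then (1 : ℂ) else 0) -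
          1 / (q2 i : ℂ) * (if (q1 : ℤ) ∣ (m : ℤ) * l i - k then (1 : ℂ) else 0))‖ ^ 2 ≤
      Real.pi ^ 2 / 4 * (∑ i ∈ I, ∑ i' ∈ I, c i * (starRingEnd ℂ) (c i') *
        ((Br Y k q1 (q2 i) (l i) (q2 i') (l i') : ℝ) : ℂ)).re := by
  have hY0 : 0 < Y := by linarith
  have hpi := Real.pi_pos
  have hfs := fj_summable5 hY0
  set ind : ℕ → ℕ → ℤ → ℝ := fun u v m => if (u : ℤ) ∣ m * v - k then 1 else 0 with hind
  have hind0 : ∀ u v m, 0 ≤ ind u v m := by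
    intro u v m
    rw [hind]
    beta_reduce
    split_ifs <;> norm_num
  have hind1 : ∀ u v m, ind u v m ≤ 1 := by
    intro u v m
    rw [hind]
    beta_reduce
    split_ifs <;> norm_num
  have hN : ∀ u v u' v', HasSum (fun m : ℤ => fj Y m * (ind u v m * ind u' v' m)) (NN Y k u v u' v') := by
    intro u v u' v'
    have hs : Summable fun m : ℤ => fj Y m * (ind u v m * ind u' v' m) := by
      refine Summable.of_nonneg_of_le (fun m => mul_nonneg (fj_nonneg5 _ _) (mul_nonneg (hind0 _ _ _) (hind0 _ _ _)))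
        (fun m => ?_) hfs
      exact mul_le_of_le_one_right (fj_nonneg5 _ _) (mul_le_one₀ (hind1 _ _ _) (hind0 _ _ _) (hind1 _ _ _))
    have he : NN Y k u v u' v' = ∑' m : ℤ, fj Y m * (ind u v m * ind u' v' m) := by
      unfold NN
      refine tsum_congr fun m => ?_
      rw [hind]
      beta_reduce
      by_cases a1 : (u : ℤ) ∣ m * v - k
      · by_cases a2 : (u' : ℤ) ∣ m * v' - k
        · rw [if_pos ⟨a1, a2⟩, if_pos a1, if_pos a2]; ring
        · rw [if_neg fun h => a2 h.2, if_neg a2]; ring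
      · rw [if_neg fun h => a1 h.1, if_neg a1]; ring
    rw [he]
    exact hs.hasSum
  set A : ι → ℤ → ℝ := fun i m => ind (q1 * q2 i) (l i) m - 1 / (q2 i : ℝ) * ind q1 (l i) m with hA
  have hB : ∀ i i', HasSum (fun m : ℤ => fj Y m * (A i m * A i' m)) (Br Y k q1 (q2 i) (l i) (q2 i') (l i')) := by
    intro i i'
    unfold Br
    have h := (((hN (q1 * q2 i) (l i) (q1 * q2 i') (l i')).sub ((hN (q1 * q2 i) (l i) q1 (l i')).mul_left (1 / (q2 i' : ℝ)))).sub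
      ((hN q1 (l i) (q1 * q2 i') (l i')).mul_left (1 / (q2 i : ℝ)))).add ((hN q1 (l i) q1 (l i')).mul_left (1 / ((q2 i : ℝ) * q2 i')))
    have e : (fun m : ℤ => fj Y m * (A i m * A i' m)) = fun m : ℤ =>
        fj Y m * (ind (q1 * q2 i) (l i) m * ind (q1 * q2 i') (l i') m) -
          1 / (q2 i' : ℝ) * (fj Y m * (ind (q1 * q2 i) (l i) m * ind q1 (l i') m)) -
          1 / (q2 i : ℝ) * (fj Y m * (ind q1 (l i) m * ind (q1 * q2 i') (l i') m)) +
          1 / ((q2 i : ℝ) * q2 i') * (fj Y m * (ind q1 (l i) m * ind q1 (l i') m)) := by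
      funext m
      rw [hA]
      beta_reduce
      rw [show 1 / ((q2 i : ℝ) * q2 i') = 1 / (q2 i : ℝ) * (1 / (q2 i' : ℝ)) by rw [one_div_mul_one_div]]
      ring
    rw [e]
    exact h
  set G : ℤ → ℂ := fun m => ∑ i ∈ I, c i * (A i m : ℂ) with hG
  have hT : HasSum (fun m : ℤ => fj Y m * ‖G m‖ ^ 2) (∑ i ∈ I, ∑ i' ∈ I, c i * (starRingEnd ℂ) (c i') *
        ((Br Y k q1 (q2 i) (l i) (q2 i') (l i') : ℝ) : ℂ)).re := by
    have h1 : HasSum (fun m : ℤ => ∑ i ∈ I, ∑ i' ∈ I, c i * (starRingEnd ℂ) (c i') * ((fj Y m * (A i m * A i' m) : ℝ) : ℂ))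
        (∑ i ∈ I, ∑ i' ∈ I, c i * (starRingEnd ℂ) (c i') * ((Br Y k q1 (q2 i) (l i) (q2 i') (l i') : ℝ) : ℂ)) := by
      refine hasSum_sum fun i _ => hasSum_sum fun i' _ => ?_
      exact (Complex.hasSum_ofReal.2 (hB i i')).mul_left _
    have h2 := Complex.reCLM.hasSum h1
    have e : (fun m : ℤ => fj Y m * ‖G m‖ ^ 2) = fun m : ℤ => Complex.reCLM
        (∑ i ∈ I, ∑ i' ∈ I, c i * (starRingEnd ℂ) (c i') * ((fj Y m * (A i m * A i' m) : ℝ) : ℂ)) := by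
     funext m
     have h3 : ∑ i ∈ I, ∑ i' ∈ I, c i * (starRingEnd ℂ) (c i') * ((fj Y m * (A i m * A i' m) : ℝ) : ℂ) =
        ((fj Y m * ‖G m‖ ^ 2 : ℝ) : ℂ) := by
      have h4 : ((‖G m‖ ^ 2 : ℝ) : ℂ) = G m * (starRingEnd ℂ) (G m) := by
        rw [Complex.mul_conj, Complex.normSq_eq_norm_sq]
      rw [Complex.ofReal_mul, h4, hG]
      beta_reduce
      rw [map_sum, sum_mul_sum, mul_sum]
      refine sum_congr rfl fun i _ => ?_
      rw [mul_sum]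
      refine sum_congr rfl fun i' _ => ?_
      rw [map_mul, Complex.conj_ofReal]
      push_cast
      ring
     rw [h3, Complex.reCLM_apply, Complex.ofReal_re]
    rw [e]
    exact h2
  have hfin : ∑ m ∈ Ioc ⌊M⌋₊ ⌊2 * M⌋₊, fj Y ((m : ℕ) : ℤ) * ‖G m‖ ^ 2 ≤ (∑ i ∈ I, ∑ i' ∈ I, c i * (starRingEnd ℂ) (c i') *
        ((Br Y k q1 (q2 i) (l i) (q2 i') (l i') : ℝ) : ℂ)).re := by
    have h1 := sum_le_hasSum ((Ioc ⌊M⌋₊ ⌊2 * M⌋₊).map ⟨fun n : ℕ => (n : ℤ), Nat.cast_injective⟩)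
      (fun m _ => mul_nonneg (fj_nonneg5 Y m) (sq_nonneg ‖G m‖)) hT
    rw [sum_map] at h1
    exact h1
  calc ∑ m ∈ Ioc ⌊M⌋₊ ⌊2 * M⌋₊, ‖∑ i ∈ I, c i *
        ((if ((q1 * q2 i : ℕ) : ℤ) ∣ (m : ℤ) * l i - k then (1 : ℂ) else 0) -
          1 / (q2 i : ℂ) * (if (q1 : ℤ) ∣ (m : ℤ) * l i - k then (1 : ℂ) else 0))‖ ^ 2 =
        ∑ m ∈ Ioc ⌊M⌋₊ ⌊2 * M⌋₊, ‖G m‖ ^ 2 := by
        refine sum_congr rfl fun m _ => ?_
        congr 2
        rw [hG]
        beta_reduce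
        refine sum_congr rfl fun i _ => ?_
        congr 1
        rw [hA, hind]
        beta_reduce
        rw [Complex.ofReal_sub, Complex.ofReal_mul, Complex.ofReal_div, Complex.ofReal_one, Complex.ofReal_natCast]
        congr 1
        · by_cases a1 : ((q1 * q2 i : ℕ) : ℤ) ∣ (m : ℤ) * l i - k
          · rw [if_pos a1, if_pos a1, Complex.ofReal_one]
          · rw [if_neg a1, if_neg a1, Complex.ofReal_zero]
        · congr 1
          by_cases a1 : (q1 : ℤ) ∣ (m : ℤ) * l i - k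
          · rw [if_pos a1, if_pos a1, Complex.ofReal_one]
          · rw [if_neg a1, if_neg a1, Complex.ofReal_zero]
    _ ≤ ∑ m ∈ Ioc ⌊M⌋₊ ⌊2 * M⌋₊, Real.pi ^ 2 / 4 * (fj Y ((m : ℕ) : ℤ) * ‖G m‖ ^ 2) := by
        refine sum_le_sum fun m hm => ?_
        rw [mem_Ioc] at hm
        have h1 : ((m : ℕ) : ℝ) ≤ 2 * M := by
          have := Nat.floor_le (by linarith : (0 : ℝ) ≤ 2 * M)
          have h2 : ((m : ℕ) : ℝ) ≤ (⌊2 * M⌋₊ : ℝ) := by exact_mod_cast hm.2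
          linarith
        have h2 : 4 / Real.pi ^ 2 ≤ fj Y ((m : ℤ) : ℝ) := by
          apply fj_lower5 _ _ hY0
          rw [Int.cast_natCast, abs_of_nonneg (Nat.cast_nonneg m)]
          linarith
        have h3 : 1 ≤ Real.pi ^ 2 / 4 * fj Y ((m : ℤ) : ℝ) := by
          calc (1 : ℝ) = Real.pi ^ 2 / 4 * (4 / Real.pi ^ 2) := by field_simp
            _ ≤ _ := mul_le_mul_of_nonneg_left h2 (by positivity)
        rw [← mul_assoc]
        exact le_mul_of_one_le_left (sq_nonneg _) h3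
    _ = Real.pi ^ 2 / 4 * ∑ m ∈ Ioc ⌊M⌋₊ ⌊2 * M⌋₊, fj Y ((m : ℕ) : ℤ) * ‖G m‖ ^ 2 := by rw [mul_sum]
    _ ≤ _ := mul_le_mul_of_nonneg_left hfin (by positivity)

theorem open1_stmt : Stmt_open1 := fun Y M hM hY k q1 h1 _ I c q2 l h2 hl =>
  open1 Y M hM hY k q1 h1 I c q2 l h2 hl

end Pool.Agent.Helper5.AP
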