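import Pool.Agent.Helper57.BG.Data
import Pool.Agent.Helper7.GPC.Div

/-!
# (A'), Type II: block T6, the exponents of the tiny type II sum
-/

open Finset

namespace Pool.Agent.Helper5.AP

open Pool.Agent.Helper57.BG

/-- statement of t1 -/
def St1 : Prop := ∀ p : TD, p.Ok → ∀ al : ℕ → ℂ, (∀ n, ‖al n‖ ≤ 1) →
    ‖p.S al‖ ^ 2 ≤ 5 * p.M * (p.Sb + p.Sc + ‖p.Sd‖ + ‖p.Se (fun _ _ => True)‖ +
      ‖p.Se (fun x q => ¬ Nat.Coprime x q)‖)

/-- statement of t2 -/
def St2 : Prop := ∀ p : TD, p.Ok → p.Sb ≤ 1100 * p.R0 * (p.M * p.X + p.M * p.X ^ 2 / p.D0 +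
    (p.Q * p.P) ^ 2 * p.X / p.D0 + (p.Q * p.P) ^ 2 * p.X ^ 2 / p.D0 ^ 2)

/-- statement of t3 -/
def St3 : Prop := ∀ p : TD, p.Ok → p.Sc ≤ 1100 * (p.M + (p.Q * p.P) ^ 2)

/-- statement of t4 -/
def St4 : Prop := ∀ p : TD, p.Ok → (p.H : ℝ) * |(p.k : ℝ)| ≤ p.Q * p.P →
    ‖p.Sd‖ ≤ 6400 * p.H * p.X * p.M * p.R0 ^ 2 * (Real.sqrt (1 / p.P) + Real.sqrt (|(p.k : ℝ)| / p.X))

/-- statement of t5 -/
def St5 : Prop := ∀ p : TD, p.Ok → p.X ≤ p.P → (p.H : ℝ) * |(p.k : ℝ)| ≤ p.Q * p.P → ∀ Z : ℕ → ℕ → Prop,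
    ‖p.Se Z‖ ≤ 32 * p.H * p.X ^ 3 * p.Q * (32 * p.M / (p.Q * p.P) ^ 2) *
      Real.sqrt (30 * p.Q * p.P * p.R0 * p.scE / p.X)

private theorem cexp {c a b u : ℝ} (hc : c ≤ Real.exp u) (h : a + u ≤ b) : c * Real.exp a ≤ Real.exp b := by
  calc c * Real.exp a ≤ Real.exp u * Real.exp a := mul_le_mul_of_nonneg_right hc (Real.exp_pos a).le
    _ = Real.exp (a + u) := by rw [← Real.exp_add, add_comm]
    _ ≤ Real.exp b := Real.exp_le_exp.2 h

/-- the logarithms -/
structure Nm (L x q p m κ r : ℝ) : Prop where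
  hc : 30 ≤ L / 10000000
  hlog : 4 + L ≤ Real.exp (L / 10000000)
  x0 : L / 2000 - L / 10000000 ≤ x
  x1 : x ≤ 131 / 10000 * L
  p0 : 3 / 50 * L - L / 10000000 ≤ p
  p1 : p ≤ (3 / 50 + 1 / 1000000) * L
  r0 : 0 ≤ r
  r1 : r ≤ L / 1000000
  w0 : L / 2 - L / 10000000 ≤ r + (q + p)
  w1 : r + (q + p) ≤ (1 / 2 + 1 / 1000000) * L
  m0 : 9 / 10 * L ≤ m + x
  m1 : m + x ≤ (1 + 1 / 1000000) * L
  k0 : 0 ≤ κ
  k1 : κ ≤ L / 1000000
  q0 : 0 ≤ q

namespace Nm

variable {L x q p m κ r : ℝ} (h : Nm L x q p m κ r)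

include h

theorem big {c : ℝ} (hc : c ≤ 1000000000) : c ≤ Real.exp (L / 10000000) := by
  have h1 : Real.exp 30 ≤ Real.exp (L / 10000000) := Real.exp_le_exp.2 h.hc
  have h2 : (2 : ℝ) ^ (30 : ℕ) ≤ Real.exp 30 := by
    have h3 : (2 : ℝ) ≤ Real.exp 1 := by
      have := Real.add_one_le_exp (1 : ℝ)
      linarith
    calc (2 : ℝ) ^ (30 : ℕ) ≤ (Real.exp 1) ^ (30 : ℕ) := pow_le_pow_left₀ (by norm_num) h3 _
      _ = Real.exp 30 := by rw [← Real.exp_nat_mul]; norm_num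
  have h4 : (1000000000 : ℝ) ≤ 2 ^ (30 : ℕ) := by norm_num
  linarith

theorem a1 : 12 * (5 * Real.exp m * (1100 * Real.exp (L / 1000000) * (Real.exp m * Real.exp x))) ≤
    Real.exp ((2 + 12 / 1000000) * L - x / 2) := by
  have e : 12 * (5 * Real.exp m * (1100 * Real.exp (L / 1000000) * (Real.exp m * Real.exp x))) =
      66000 * Real.exp (m + (L / 1000000) + (m + x)) := by
    simp only [Real.exp_add]; ring
  rw [e]
  refine cexp (h.big (by norm_num)) ?_
  have := h.hc; have := h.x0; have := h.m1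
  linarith

theorem a2 : 12 * (5 * Real.exp m * (1100 * Real.exp (L / 1000000) * (Real.exp m * Real.exp x ^ 2 / Real.exp (L / 100)))) ≤
    Real.exp ((2 - 6 / 1000) * L) := by
  have e : 12 * (5 * Real.exp m * (1100 * Real.exp (L / 1000000) * (Real.exp m * Real.exp x ^ 2 / Real.exp (L / 100)))) =
      66000 * Real.exp (m + (L / 1000000) + (m + x + x) - L / 100) := by
    simp only [Real.exp_add, Real.exp_sub]; ring
  rw [e]
  refine cexp (h.big (by norm_num)) ?_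
  have := h.hc; have := h.x0; have := h.m1
  linarith

theorem a3 : 12 * (5 * Real.exp m * (1100 * Real.exp (L / 1000000) * ((Real.exp q * Real.exp p) ^ 2 * Real.exp x / Real.exp (L / 100)))) ≤
    Real.exp ((2 - 6 / 1000) * L) := by
  have e : 12 * (5 * Real.exp m * (1100 * Real.exp (L / 1000000) * ((Real.exp q * Real.exp p) ^ 2 * Real.exp x / Real.exp (L / 100)))) =
      66000 * Real.exp (m + (L / 1000000) + (q + p + (q + p) + x) - L / 100) := by
    simp only [Real.exp_add, Real.exp_sub]; ring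
  rw [e]
  refine cexp (h.big (by norm_num)) ?_
  have := h.hc; have := h.x0; have := h.m1; have := h.w1; have := h.r0
  linarith

theorem a4 : 12 * (5 * Real.exp m * (1100 * Real.exp (L / 1000000) * ((Real.exp q * Real.exp p) ^ 2 * Real.exp x ^ 2 / Real.exp (L / 100) ^ 2))) ≤
    Real.exp ((2 - 6 / 1000) * L) := by
  have e : 12 * (5 * Real.exp m * (1100 * Real.exp (L / 1000000) * ((Real.exp q * Real.exp p) ^ 2 * Real.exp x ^ 2 / Real.exp (L / 100) ^ 2))) =
      66000 * Real.exp (m + (L / 1000000) + (q + p + (q + p) + x + x) - L / 100 - L / 100) := by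
    simp only [Real.exp_add, Real.exp_sub]; ring
  rw [e]
  refine cexp (h.big (by norm_num)) ?_
  have := h.hc; have := h.x1; have := h.m1; have := h.w1; have := h.r0
  linarith

theorem a5 : 12 * (5 * Real.exp m * (1100 * Real.exp m)) ≤
    Real.exp ((2 + 12 / 1000000) * L - x / 2) := by
  have e : 12 * (5 * Real.exp m * (1100 * Real.exp m)) = 66000 * Real.exp (m + m) := by
    simp only [Real.exp_add]; ring
  rw [e]
  refine cexp (h.big (by norm_num)) ?_
  have := h.hc; have := h.x0; have := h.m1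
  linarith

theorem a6 : 12 * (5 * Real.exp m * (1100 * (Real.exp q * Real.exp p) ^ 2)) ≤
    Real.exp ((2 + 12 / 1000000) * L - x / 2) := by
  have e : 12 * (5 * Real.exp m * (1100 * (Real.exp q * Real.exp p) ^ 2)) =
      66000 * Real.exp (m + (q + p + (q + p))) := by
    simp only [Real.exp_add]; ring
  rw [e]
  refine cexp (h.big (by norm_num)) ?_
  have := h.hc; have := h.x0; have := h.m1; have := h.w1; have := h.r0
  linarith

theorem hH : 4 * Real.exp r * (Real.exp q * Real.exp p) ^ 2 / Real.exp m + 1 ≤ Real.exp ((1 + 21 / 10000000) * L - m) := by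
  have e : 4 * Real.exp r * (Real.exp q * Real.exp p) ^ 2 / Real.exp m = 4 * Real.exp (r + (q + p + (q + p)) - m) := by
    simp only [Real.exp_add, Real.exp_sub]; ring
  rw [e]
  have h1 : Real.exp (r + (q + p + (q + p)) - m) ≤ Real.exp ((1 + 2 / 1000000) * L - m) := by
    refine Real.exp_le_exp.2 ?_
    have := h.w1; have := h.r0
    linarith
  have h2 : 1 ≤ Real.exp ((1 + 2 / 1000000) * L - m) := by
    refine Real.one_le_exp ?_
    have := h.x0; have := h.hc; have := h.m1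
    linarith
  have h3 : 5 * Real.exp ((1 + 2 / 1000000) * L - m) ≤ Real.exp ((1 + 21 / 10000000) * L - m) := by
    refine cexp (h.big (by norm_num)) ?_
    linarith
  linarith

theorem a7 : 12 * (5 * Real.exp m * (6400 * Real.exp ((1 + 21 / 10000000) * L - m) * Real.exp x * Real.exp m * Real.exp (L / 1000000) ^ 2 *
    Real.sqrt (1 / Real.exp p))) ≤ Real.exp ((2 - 6 / 1000) * L) := by
  have e1 : Real.sqrt (1 / Real.exp p) = Real.exp (-p / 2) := by
    rw [Real.sqrt_eq_iff_mul_self_eq (by positivity) (Real.exp_pos _).le, ← Real.exp_add, one_div, ← Real.exp_neg]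
    congr 1
    ring
  rw [e1]
  have e : 12 * (5 * Real.exp m * (6400 * Real.exp ((1 + 21 / 10000000) * L - m) * Real.exp x * Real.exp m * Real.exp (L / 1000000) ^ 2 *
      Real.exp (-p / 2))) = 384000 * Real.exp (m + ((1 + 21 / 10000000) * L - m) + x + m + L / 1000000 + L / 1000000 + (-p / 2)) := by
    simp only [Real.exp_add]; ring
  rw [e]
  refine cexp (h.big (by norm_num)) ?_
  have := h.hc; have := h.p0; have := h.m1
  linarith

theorem a8 : 12 * (5 * Real.exp m * (6400 * Real.exp ((1 + 21 / 10000000) * L - m) * Real.exp x * Real.exp m * Real.exp (L / 1000000) ^ 2 *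
    Real.sqrt (Real.exp κ / Real.exp x))) ≤ Real.exp ((2 + 12 / 1000000) * L - x / 2) := by
  have e1 : Real.sqrt (Real.exp κ / Real.exp x) = Real.exp ((κ - x) / 2) := by
    rw [Real.sqrt_eq_iff_mul_self_eq (by positivity) (Real.exp_pos _).le, ← Real.exp_add, ← Real.exp_sub]
    congr 1
    ring
  rw [e1]
  have e : 12 * (5 * Real.exp m * (6400 * Real.exp ((1 + 21 / 10000000) * L - m) * Real.exp x * Real.exp m * Real.exp (L / 1000000) ^ 2 *
      Real.exp ((κ - x) / 2))) = 384000 * Real.exp (m + ((1 + 21 / 10000000) * L - m) + x + m + L / 1000000 + L / 1000000 + ((κ - x) / 2)) := by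
    simp only [Real.exp_add]; ring
  rw [e]
  refine cexp (h.big (by norm_num)) ?_
  have := h.hc; have := h.m1; have := h.k1
  linarith

/-- the second Cauchy inequality -/
theorem sc (H : ℝ) (hH0 : 0 ≤ H) (hH : H ≤ Real.exp ((1 + 21 / 10000000) * L - m)) :
    2 * Real.exp p * (4 * Real.exp q * Real.exp p / Real.exp x + 1) + 4 * Real.exp p ^ 2 *
    ((4 / (Real.exp x * Real.exp p) + 1) * (H * Real.exp κ * Real.exp x * Real.exp p) +
    2 ^ (7 + 3) * (8 * Real.exp q * Real.exp p ^ 2) ^ (3 / 4 : ℝ) * (H * Real.exp κ * Real.exp x * Real.exp p) ^ (1 / 4 : ℝ) *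
      (1 + Real.log (8 * Real.exp q * Real.exp p ^ 2))) ≤
    10 * Real.exp (p + (q + p) - x) + 20 * Real.exp (p + p + ((1 + 21 / 10000000) * L - m + κ + x + p)) +
      32768 * Real.exp (L / 10000000 + (p + p) + 3 / 4 * (q + p + p) + 1 / 4 * ((1 + 21 / 10000000) * L - m + κ + x + p)) := by
  have hc := h.hc
  have hx := h.x0
  have hx1 := h.x1
  have hp := h.p0
  have hp1 := h.p1
  have hw0 := h.w0
  have hw1 := h.w1
  have hr0 := h.r0
  have hr1 := h.r1
  have hk0 := h.k0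
  have hk1 := h.k1
  set A : ℝ := (1 + 21 / 10000000) * L - m + κ + x + p with hA
  have hB : H * Real.exp κ * Real.exp x * Real.exp p ≤ Real.exp A := by
    rw [hA, Real.exp_add, Real.exp_add, Real.exp_add]
    gcongr
  have hB0 : 0 ≤ H * Real.exp κ * Real.exp x * Real.exp p := by positivity
  have hw : x ≤ q + p := by linarith
  have t1 : 2 * Real.exp p * (4 * Real.exp q * Real.exp p / Real.exp x + 1) ≤ 10 * Real.exp (p + (q + p) - x) := by
    have e : 4 * Real.exp q * Real.exp p / Real.exp x = 4 * Real.exp (q + p - x) := by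
      simp only [Real.exp_add, Real.exp_sub]; ring
    have h1 : 1 ≤ Real.exp (q + p - x) := Real.one_le_exp (by linarith)
    have e2 : Real.exp (p + (q + p) - x) = Real.exp p * Real.exp (q + p - x) := by
      rw [← Real.exp_add]; congr 1; ring
    rw [e, e2]
    nlinarith [Real.exp_pos p]
  have t2 : (4 / (Real.exp x * Real.exp p) + 1) * (H * Real.exp κ * Real.exp x * Real.exp p) ≤ 5 * Real.exp A := by
    refine mul_le_mul ?_ hB hB0 (by norm_num)
    have h1 : 1 ≤ Real.exp x * Real.exp p := by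
      rw [← Real.exp_add]
      exact Real.one_le_exp (by linarith)
    have h2 : 4 / (Real.exp x * Real.exp p) ≤ 4 := div_le_self (by norm_num) h1
    linarith
  have e8 : 8 * Real.exp q * Real.exp p ^ 2 = 8 * Real.exp (q + p + p) := by
    simp only [Real.exp_add]; ring
  have t3 : (8 * Real.exp q * Real.exp p ^ 2) ^ (3 / 4 : ℝ) ≤ 8 * Real.exp (3 / 4 * (q + p + p)) := by
    rw [e8, Real.mul_rpow (by norm_num) (Real.exp_pos _).le, ← Real.exp_mul, mul_comm (q + p + p) (3 / 4 : ℝ)]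
    refine mul_le_mul_of_nonneg_right ?_ (Real.exp_pos _).le
    calc (8 : ℝ) ^ (3 / 4 : ℝ) ≤ (8 : ℝ) ^ (1 : ℝ) := Real.rpow_le_rpow_of_exponent_le (by norm_num) (by norm_num)
      _ = 8 := Real.rpow_one 8
  have t4 : (H * Real.exp κ * Real.exp x * Real.exp p) ^ (1 / 4 : ℝ) ≤ Real.exp (1 / 4 * A) := by
    calc (H * Real.exp κ * Real.exp x * Real.exp p) ^ (1 / 4 : ℝ) ≤ (Real.exp A) ^ (1 / 4 : ℝ) :=
          Real.rpow_le_rpow hB0 hB (by norm_num)
      _ = Real.exp (1 / 4 * A) := by rw [← Real.exp_mul, mul_comm]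
  have hl8 : Real.log 8 ≤ 3 := by
    have h2 : Real.log 8 = 3 * Real.log 2 := by
      rw [show (8 : ℝ) = 2 ^ 3 by norm_num, Real.log_pow]
      norm_num
    have h3 : Real.log 2 ≤ 1 := by
      have := Real.log_le_sub_one_of_pos (show (0 : ℝ) < 2 by norm_num)
      linarith
    linarith
  have t5 : 1 + Real.log (8 * Real.exp q * Real.exp p ^ 2) ≤ Real.exp (L / 10000000) := by
    rw [e8, Real.log_mul (by norm_num) (Real.exp_pos _).ne', Real.log_exp]
    have := h.hlog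
    linarith
  have t50 : 0 ≤ 1 + Real.log (8 * Real.exp q * Real.exp p ^ 2) := by
    rw [e8, Real.log_mul (by norm_num) (Real.exp_pos _).ne', Real.log_exp]
    have : 0 ≤ Real.log 8 := Real.log_nonneg (by norm_num)
    linarith
  have t6 : 2 ^ (7 + 3) * (8 * Real.exp q * Real.exp p ^ 2) ^ (3 / 4 : ℝ) * (H * Real.exp κ * Real.exp x * Real.exp p) ^ (1 / 4 : ℝ) *
      (1 + Real.log (8 * Real.exp q * Real.exp p ^ 2)) ≤
      2 ^ (7 + 3) * (8 * Real.exp (3 / 4 * (q + p + p))) * Real.exp (1 / 4 * A) * Real.exp (L / 10000000) := by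
    refine mul_le_mul ?_ t5 t50 (by positivity)
    refine mul_le_mul ?_ t4 (Real.rpow_nonneg hB0 _) (by positivity)
    exact mul_le_mul_of_nonneg_left t3 (by norm_num)
  have e5 : 20 * Real.exp (p + p + A) = 4 * Real.exp p ^ 2 * (5 * Real.exp A) := by
    simp only [Real.exp_add]; ring
  have e6 : 32768 * Real.exp (L / 10000000 + (p + p) + 3 / 4 * (q + p + p) + 1 / 4 * A) =
      4 * Real.exp p ^ 2 * (2 ^ (7 + 3) * (8 * Real.exp (3 / 4 * (q + p + p))) * Real.exp (1 / 4 * A) * Real.exp (L / 10000000)) := by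
    rw [Real.exp_add, Real.exp_add, Real.exp_add, Real.exp_add]
    ring
  rw [e5, e6, mul_add (4 * Real.exp p ^ 2)]
  have hpos : 0 ≤ 4 * Real.exp p ^ 2 := by positivity
  have u1 := mul_le_mul_of_nonneg_left t2 hpos
  have u2 := mul_le_mul_of_nonneg_left t6 hpos
  linarith

theorem a9 (H s : ℝ) (_hH0 : 0 ≤ H) (hH : H ≤ Real.exp ((1 + 21 / 10000000) * L - m))
    (hs : s ≤ 10 * Real.exp (p + (q + p) - x) + 20 * Real.exp (p + p + ((1 + 21 / 10000000) * L - m + κ + x + p)) +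
      32768 * Real.exp (L / 10000000 + (p + p) + 3 / 4 * (q + p + p) + 1 / 4 * ((1 + 21 / 10000000) * L - m + κ + x + p))) :
    12 * (5 * Real.exp m * (32 * H * Real.exp x ^ 3 * Real.exp q * (32 * Real.exp m / (Real.exp q * Real.exp p) ^ 2) *
      Real.sqrt (30 * Real.exp q * Real.exp p * Real.exp (L / 1000000) * s / Real.exp x))) ≤ Real.exp ((2 - 6 / 1000) * L) := by
  have hc := h.hc
  have hx := h.x0
  have hx1 := h.x1
  have hp := h.p0
  have hp1 := h.p1
  have hw0 := h.w0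
  have hw1 := h.w1
  have hr0 := h.r0
  have hr1 := h.r1
  have hk0 := h.k0
  have hk1 := h.k1
  have hm0 := h.m0
  have hm1 := h.m1
  set A : ℝ := m + ((1 + 21 / 10000000) * L - m) + (x + x + x) + q + m - (q + p) - (q + p) with hA
  set g : ℝ := (2 - 6 / 1000) * L - A - L / 10000000 with hg
  have e1 : 30 * Real.exp q * Real.exp p * Real.exp (L / 1000000) * s / Real.exp x =
      30 * Real.exp (q + p + L / 1000000 - x) * s := by
    simp only [Real.exp_add, Real.exp_sub]; ring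
  have hs1 : Real.sqrt (30 * Real.exp q * Real.exp p * Real.exp (L / 1000000) * s / Real.exp x) ≤ Real.exp g := by
    rw [Real.sqrt_le_left (Real.exp_pos g).le, e1]
    have e2 : (Real.exp g) ^ 2 = Real.exp (g + g) := by rw [Real.exp_add]; ring
    rw [e2]
    have b1 : 900 * Real.exp (q + p + L / 1000000 - x + (p + (q + p) - x)) ≤ Real.exp (g + g) := by
      refine cexp (h.big (by norm_num)) ?_
      rw [hg, hA]
      linarith
    have b2 : 1800 * Real.exp (q + p + L / 1000000 - x + (p + p + ((1 + 21 / 10000000) * L - m + κ + x + p))) ≤ Real.exp (g + g) := by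
      refine cexp (h.big (by norm_num)) ?_
      rw [hg, hA]
      linarith
    have b3 : 2949120 * Real.exp (q + p + L / 1000000 - x + (L / 10000000 + (p + p) + 3 / 4 * (q + p + p) + 1 / 4 * ((1 + 21 / 10000000) * L - m + κ + x + p))) ≤
        Real.exp (g + g) := by
      refine cexp (h.big (by norm_num)) ?_
      rw [hg, hA]
      linarith
    rw [Real.exp_add (q + p + L / 1000000 - x)] at b1 b2 b3
    have b4 := mul_le_mul_of_nonneg_left hs (show 0 ≤ 30 * Real.exp (q + p + L / 1000000 - x) by positivity)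
    linarith
  have e3 : 12 * (5 * Real.exp m * (32 * Real.exp ((1 + 21 / 10000000) * L - m) * Real.exp x ^ 3 * Real.exp q * (32 * Real.exp m / (Real.exp q * Real.exp p) ^ 2) *
      Real.exp g)) = 61440 * Real.exp (A + g) := by
    rw [Real.exp_add A g, hA]
    simp only [Real.exp_add, Real.exp_sub]
    field_simp
    ring
  calc 12 * (5 * Real.exp m * (32 * H * Real.exp x ^ 3 * Real.exp q * (32 * Real.exp m / (Real.exp q * Real.exp p) ^ 2) *
      Real.sqrt (30 * Real.exp q * Real.exp p * Real.exp (L / 1000000) * s / Real.exp x))) ≤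
        12 * (5 * Real.exp m * (32 * Real.exp ((1 + 21 / 10000000) * L - m) * Real.exp x ^ 3 * Real.exp q * (32 * Real.exp m / (Real.exp q * Real.exp p) ^ 2) *
      Real.exp g)) := by gcongr
    _ = 61440 * Real.exp (A + g) := e3
    _ ≤ Real.exp ((2 - 6 / 1000) * L) := by
        refine cexp (h.big (by norm_num)) ?_
        rw [hg]
        linarith

end Nm

/-- the divisor bound -/
theorem div6 : ∃ L0 : ℝ, ∀ L : ℝ, L0 ≤ L → ∀ q p r : ℝ, 0 ≤ r → r + (q + p) ≤ (1 / 2 + 1 / 1000000) * L → 30 ≤ L / 10000000 →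
    ∀ n : ℕ, 1 ≤ n → (n : ℝ) ≤ 16 * Real.exp q * Real.exp p → (n.divisors.card : ℝ) ≤ Real.exp (L / 1000000) := by
  obtain ⟨C, hC1, hC⟩ := Pool.Agent.Helper7.GPC.card_divisors_le (ε := 1 / 2000000) (by norm_num)
  refine ⟨10000000 * Real.log C, fun L hL q p r hr hw hc n hn1 hn => ?_⟩
  have h1 : C ≤ Real.exp (L / 10000000) := by
    rw [← Real.log_le_iff_le_exp (by linarith)]
    linarith
  have h2 : (n : ℝ) ≤ Real.exp L := by
    refine hn.trans ?_
    have e : 16 * Real.exp q * Real.exp p = 16 * Real.exp (q + p) := by rw [Real.exp_add]; ring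
    rw [e]
    have h16 : (16 : ℝ) ≤ Real.exp 15 := by
      have := Real.add_one_le_exp (15 : ℝ)
      linarith
    refine cexp h16 ?_
    linarith
  have hn0 : (0 : ℝ) ≤ n := Nat.cast_nonneg n
  calc (n.divisors.card : ℝ) ≤ C * (n : ℝ) ^ (1 / 2000000 : ℝ) := hC n (by omega)
    _ ≤ Real.exp (L / 10000000) * (Real.exp L) ^ (1 / 2000000 : ℝ) := by
        refine mul_le_mul h1 (Real.rpow_le_rpow hn0 h2 (by norm_num)) (Real.rpow_nonneg hn0 _) (Real.exp_pos _).le
    _ = Real.exp (L / 10000000 + L * (1 / 2000000)) := by rw [← Real.exp_mul, ← Real.exp_add]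
    _ ≤ Real.exp (L / 1000000) := Real.exp_le_exp.2 (by linarith)

/-- **T6.** exponents; saving `X^(1/4) T^(-4 δ)`, at most `T^(.003)` -/
theorem TIIS_of (t1 : St1) (t2 : St2) (t3 : St3) (t4 : St4) (t5 : St5) :
    ∃ T0 : ℝ, 1 ≤ T0 ∧ ∀ T ≥ T0, ∀ (k : ℤ) (q1 : ℕ) (Q P X M : ℝ) (QQ W XX : Finset ℕ)
    (al b lam be : ℕ → ℂ), k ≠ 0 → |(k : ℝ)| ≤ T ^ (1 / 1000000 : ℝ) → 1 ≤ q1 → Int.gcd k q1 = 1 →
    1 ≤ Q → T ^ (3 / 50 : ℝ) / 2 ≤ P → P ≤ T ^ (3 / 50 + 1 / 1000000 : ℝ) →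
    T ^ (1 / 2000 : ℝ) / 2 ≤ X → X ≤ T ^ (131 / 10000 : ℝ) →
    (q1 : ℝ) ≤ T ^ (1 / 1000000 : ℝ) →
    T ^ (1 / 2 : ℝ) / 8 ≤ q1 * Q * P → q1 * Q * P ≤ T ^ (1 / 2 + 1 / 1000000 : ℝ) →
    T ^ (9 / 10 : ℝ) ≤ M * X → M * X ≤ T ^ (1 + 1 / 1000000 : ℝ) →
    (∀ q ∈ QQ, Squarefree q ∧ Q < q ∧ (q : ℝ) ≤ 2 * Q ∧ q.primeFactors.card ≤ 7 ∧
      ∀ r : ℕ, r.Prime → r ∣ q → T ^ (1 / 100 : ℝ) ≤ r) →
    (∀ w ∈ W, w.Prime ∧ P < w ∧ (w : ℝ) ≤ 2 * P) → (∀ w ∈ W, ∀ q ∈ QQ, Nat.Coprime w q) →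
    (∀ x ∈ XX, X < x ∧ (x : ℝ) ≤ 2 * X ∧ Nat.Coprime x q1) →
    (∀ x ∈ XX, ∀ q ∈ QQ, ∀ w ∈ W, Nat.Coprime x (q * w) ∨ x ∣ q * w) →
    (∀ n, ‖al n‖ ≤ 1) → (∀ n, ‖b n‖ ≤ 1) → (∀ n, ‖lam n‖ ≤ 1) → (∀ n, ‖be n‖ ≤ 1) →
    ∀ D0 R0 : ℝ, ‖(⟨k, q1, Q, P, X, M, D0, R0, 7, QQ, W, XX, b, lam, be⟩ : TD).S al‖ ≤
      T ^ (1 + 6 / 1000000 : ℝ) * X ^ (-(1 / 4) : ℝ) + T ^ (1 - 3 / 1000 : ℝ) := by
  obtain ⟨L0, hL0⟩ := div6
  refine ⟨max 1 (Real.exp (max L0 (10 ^ 15))), le_max_left _ _, fun T hT k q1 Q P X M QQ W XX al b lam be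
    hk0 hk hq1 hkq hQ hP0 hP1 hX0 hX1 hq1T hR0 hR1 hMX0 hMX1 hQQ hW hWQ hXX hXQW hal hb hlam hbe D0 R0 => ?_⟩
  have hT1 : 1 ≤ T := (le_max_left _ _).trans hT
  obtain ⟨L, rfl⟩ : ∃ L, T = Real.exp L := ⟨Real.log T, (Real.exp_log (by linarith)).symm⟩
  have hL : max L0 (10 ^ 15) ≤ L := Real.exp_le_exp.1 ((le_max_right _ _).trans hT)
  have hL1 : L0 ≤ L := (le_max_left _ _).trans hL
  have hL2 : (10 : ℝ) ^ 15 ≤ L := (le_max_right _ _).trans hL
  simp only [← Real.exp_mul] at *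
  have hP' : 0 < P := lt_of_lt_of_le (by positivity) hP0
  have hX' : 0 < X := lt_of_lt_of_le (by positivity) hX0
  have hQ' : 0 < Q := by linarith
  have hM' : 0 < M := by
    have h1 : 0 < M * X := lt_of_lt_of_le (Real.exp_pos _) hMX0
    exact (pos_iff_pos_of_mul_pos h1).2 hX'
  obtain ⟨q, rfl⟩ : ∃ q, Q = Real.exp q := ⟨Real.log Q, (Real.exp_log hQ').symm⟩
  obtain ⟨p, rfl⟩ : ∃ p, P = Real.exp p := ⟨Real.log P, (Real.exp_log hP').symm⟩
  obtain ⟨x, rfl⟩ : ∃ x, X = Real.exp x := ⟨Real.log X, (Real.exp_log hX').symm⟩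
  obtain ⟨m, rfl⟩ : ∃ m, M = Real.exp m := ⟨Real.log M, (Real.exp_log hM').symm⟩
  obtain ⟨r, hr⟩ : ∃ r, (q1 : ℝ) = Real.exp r := ⟨Real.log q1, (Real.exp_log (by exact_mod_cast hq1)).symm⟩
  have hkpos : 1 ≤ |(k : ℝ)| := by
    have : 1 ≤ |k| := Int.one_le_abs hk0
    exact_mod_cast this
  obtain ⟨κ, hκ⟩ : ∃ κ, |(k : ℝ)| = Real.exp κ := ⟨Real.log |(k : ℝ)|, (Real.exp_log (by linarith)).symm⟩
  have hl2 : ∀ a : ℝ, Real.exp (a - 1) ≤ Real.exp a / 2 := by
    intro a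
    rw [Real.exp_sub]
    have h3 : (2 : ℝ) ≤ Real.exp 1 := by
      have := Real.add_one_le_exp (1 : ℝ)
      linarith
    exact div_le_div_of_nonneg_left (Real.exp_pos _).le (by norm_num) h3
  have hl8 : ∀ a : ℝ, Real.exp (a - 7) ≤ Real.exp a / 8 := by
    intro a
    rw [Real.exp_sub]
    have h3 : (8 : ℝ) ≤ Real.exp 7 := by
      have := Real.add_one_le_exp (7 : ℝ)
      linarith
    exact div_le_div_of_nonneg_left (Real.exp_pos _).le (by norm_num) h3
  have n1 : 1 ≤ Real.exp r := by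
    rw [← hr]
    exact_mod_cast hq1
  have n2 : Real.exp (L * (1 / 2) - 7) ≤ Real.exp (r + (q + p)) := by
    rw [Real.exp_add r, Real.exp_add q, ← mul_assoc, ← hr]
    exact (hl8 _).trans hR0
  have n3 : Real.exp (r + (q + p)) ≤ Real.exp (L * (1 / 2 + 1 / 1000000)) := by
    rw [Real.exp_add r, Real.exp_add q, ← mul_assoc, ← hr]
    exact hR1
  have n4 : Real.exp (L * (9 / 10)) ≤ Real.exp (m + x) := by
    rw [Real.exp_add]
    exact hMX0
  have n5 : Real.exp (m + x) ≤ Real.exp (L * (1 + 1 / 1000000)) := by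
    rw [Real.exp_add]
    exact hMX1
  have hN : Nm L x q p m κ r := by
    refine ⟨by norm_num at hL2 ⊢; linarith, ?_, ?_, ?_, ?_, ?_, ?_, ?_, ?_, ?_, ?_, ?_, ?_, ?_, ?_⟩
    · have h1 := Real.quadratic_le_exp_of_nonneg (show 0 ≤ L / 10000000 by positivity)
      norm_num at hL2
      nlinarith
    · have := Real.exp_le_exp.1 ((hl2 _).trans hX0)
      norm_num at hL2
      linarith
    · have := Real.exp_le_exp.1 hX1
      linarith
    · have := Real.exp_le_exp.1 ((hl2 _).trans hP0)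
      norm_num at hL2
      linarith
    · have := Real.exp_le_exp.1 hP1
      linarith
    · have := Real.exp_le_exp.1 (Real.exp_zero.le.trans n1)
      exact this
    · rw [hr] at hq1T
      have := Real.exp_le_exp.1 hq1T
      linarith
    · have := Real.exp_le_exp.1 n2
      norm_num at hL2
      linarith
    · have := Real.exp_le_exp.1 n3
      linarith
    · have := Real.exp_le_exp.1 n4
      linarith
    · have := Real.exp_le_exp.1 n5
      linarith
    · rw [hκ] at hkpos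
      exact Real.exp_le_exp.1 (Real.exp_zero.le.trans hkpos)
    · rw [hκ] at hk
      have := Real.exp_le_exp.1 hk
      linarith
    · exact Real.exp_le_exp.1 (Real.exp_zero.le.trans hQ)
  have hc := hN.hc
  have c1 := hN.x0
  have c2 := hN.x1
  have c3 := hN.p0
  have c4 := hN.p1
  have c5 := hN.r0
  have c6 := hN.r1
  have c7 := hN.w0
  have c8 := hN.w1
  have c9 := hN.m0
  have c10 := hN.m1
  have c11 := hN.k0
  have c12 := hN.k1
  set pp : TD := ⟨k, q1, Real.exp q, Real.exp p, Real.exp x, Real.exp m, Real.exp (L / 100), Real.exp (L / 1000000), 7,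
    QQ, W, XX, b, lam, be⟩ with hpp
  have hok : pp.Ok := by
    refine ⟨hk0, ?_, hq1, hkq, hQ, Real.one_le_exp (by linarith), Real.one_le_exp (by linarith),
      Real.one_le_exp (by linarith), ?_, ?_, Real.one_le_exp (by linarith), Real.exp_le_exp.2 (by linarith), ?_, ?_,
      hW, hWQ, hXX, hXQW, hb, hlam, hbe⟩
    · show |(k : ℝ)| < Real.exp (L / 100)
      rw [hκ]
      exact Real.exp_lt_exp.2 (by linarith)
    · show Real.exp x ≤ Real.exp q * Real.exp p
      rw [← Real.exp_add]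
      exact Real.exp_le_exp.2 (by linarith)
    · show (q1 : ℝ) * Real.exp q * Real.exp p ≤ Real.exp m
      rw [hr, ← Real.exp_add, ← Real.exp_add]
      exact Real.exp_le_exp.2 (by linarith)
    · exact hL0 L hL1 q p r c5 c8 hc
    · intro z hz
      obtain ⟨z1, z2, z3, z4, z5⟩ := hQQ z hz
      refine ⟨z1, z2, z3, z4, fun s hs hs' => ?_⟩
      have := z5 s hs hs'
      show Real.exp (L / 100) ≤ s
      rw [show L / 100 = L * (1 / 100) by ring]
      exact this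
  have hHdef : pp.H = ⌈4 * (q1 : ℝ) * (Real.exp q * Real.exp p) ^ 2 / Real.exp m⌉₊ := rfl
  have hH : (pp.H : ℝ) ≤ Real.exp ((1 + 21 / 10000000) * L - m) := by
    have h1 := (Nat.ceil_lt_add_one (show 0 ≤ 4 * (q1 : ℝ) * (Real.exp q * Real.exp p) ^ 2 / Real.exp m by positivity)).le
    rw [hHdef]
    refine h1.trans ?_
    rw [hr]
    exact hN.hH
  have hH0 : (0 : ℝ) ≤ pp.H := Nat.cast_nonneg _
  have hHk : (pp.H : ℝ) * |(pp.k : ℝ)| ≤ pp.Q * pp.P := by
    show (pp.H : ℝ) * |(k : ℝ)| ≤ Real.exp q * Real.exp p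
    rw [hκ]
    calc (pp.H : ℝ) * Real.exp κ ≤ Real.exp ((1 + 21 / 10000000) * L - m) * Real.exp κ :=
          mul_le_mul_of_nonneg_right hH (Real.exp_pos _).le
      _ = Real.exp ((1 + 21 / 10000000) * L - m + κ) := (Real.exp_add _ _).symm
      _ ≤ Real.exp (q + p) := Real.exp_le_exp.2 (by linarith)
      _ = Real.exp q * Real.exp p := Real.exp_add _ _
  have hXP : pp.X ≤ pp.P := Real.exp_le_exp.2 (by linarith)
  have hsc : pp.scE ≤ 10 * Real.exp (p + (q + p) - x) + 20 * Real.exp (p + p + ((1 + 21 / 10000000) * L - m + κ + x + p)) +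
      32768 * Real.exp (L / 10000000 + (p + p) + 3 / 4 * (q + p + p) + 1 / 4 * ((1 + 21 / 10000000) * L - m + κ + x + p)) := by
    have h1 := hN.sc (pp.H : ℝ) hH0 hH
    have h2 : pp.scE = 2 * Real.exp p * (4 * Real.exp q * Real.exp p / Real.exp x + 1) + 4 * Real.exp p ^ 2 *
        ((4 / (Real.exp x * Real.exp p) + 1) * ((pp.H : ℝ) * |(k : ℝ)| * Real.exp x * Real.exp p) +
        2 ^ (7 + 3) * (8 * Real.exp q * Real.exp p ^ 2) ^ (3 / 4 : ℝ) * ((pp.H : ℝ) * |(k : ℝ)| * Real.exp x * Real.exp p) ^ (1 / 4 : ℝ) *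
          (1 + Real.log (8 * Real.exp q * Real.exp p ^ 2))) := rfl
    rw [h2, hκ]
    exact h1
  have s1 := t1 pp hok al hal
  have s2 : pp.Sb ≤ 1100 * Real.exp (L / 1000000) * (Real.exp m * Real.exp x + Real.exp m * Real.exp x ^ 2 / Real.exp (L / 100) +
      (Real.exp q * Real.exp p) ^ 2 * Real.exp x / Real.exp (L / 100) +
      (Real.exp q * Real.exp p) ^ 2 * Real.exp x ^ 2 / Real.exp (L / 100) ^ 2) := t2 pp hok
  have s3 : pp.Sc ≤ 1100 * (Real.exp m + (Real.exp q * Real.exp p) ^ 2) := t3 pp hok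
  have s4 : ‖pp.Sd‖ ≤ 6400 * Real.exp ((1 + 21 / 10000000) * L - m) * Real.exp x * Real.exp m * Real.exp (L / 1000000) ^ 2 *
      (Real.sqrt (1 / Real.exp p) + Real.sqrt (Real.exp κ / Real.exp x)) := by
    have h1 : ‖pp.Sd‖ ≤ 6400 * (pp.H : ℝ) * Real.exp x * Real.exp m * Real.exp (L / 1000000) ^ 2 *
      (Real.sqrt (1 / Real.exp p) + Real.sqrt (|(k : ℝ)| / Real.exp x)) := t4 pp hok hHk
    rw [hκ] at h1
    refine h1.trans ?_
    gcongr
  have s5 : ∀ Z : ℕ → ℕ → Prop, 12 * (5 * Real.exp m * ‖pp.Se Z‖) ≤ Real.exp ((2 - 6 / 1000) * L) := by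
    intro Z
    have h1 : ‖pp.Se Z‖ ≤ 32 * (pp.H : ℝ) * Real.exp x ^ 3 * Real.exp q * (32 * Real.exp m / (Real.exp q * Real.exp p) ^ 2) *
      Real.sqrt (30 * Real.exp q * Real.exp p * Real.exp (L / 1000000) * pp.scE / Real.exp x) := t5 pp hok hXP hHk Z
    refine le_trans ?_ (hN.a9 (pp.H : ℝ) pp.scE hH0 hH hsc)
    exact mul_le_mul_of_nonneg_left (mul_le_mul_of_nonneg_left h1 (by positivity)) (by norm_num)
  have hmm : (0 : ℝ) ≤ 5 * Real.exp m := by positivity
  set A : ℝ := Real.exp ((2 + 12 / 1000000) * L - x / 2) with hA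
  set B : ℝ := Real.exp ((2 - 6 / 1000) * L) with hB
  have hAB : ‖pp.S al‖ ^ 2 ≤ A + B := by
    have u1 : 5 * pp.M * (pp.Sb + pp.Sc + ‖pp.Sd‖ + ‖pp.Se (fun _ _ => True)‖ + ‖pp.Se (fun x q => ¬ Nat.Coprime x q)‖) =
        5 * Real.exp m * pp.Sb + 5 * Real.exp m * pp.Sc + 5 * Real.exp m * ‖pp.Sd‖ +
        5 * Real.exp m * ‖pp.Se (fun _ _ => True)‖ + 5 * Real.exp m * ‖pp.Se (fun x q => ¬ Nat.Coprime x q)‖ := by
      show 5 * Real.exp m * (pp.Sb + pp.Sc + ‖pp.Sd‖ + ‖pp.Se (fun _ _ => True)‖ + ‖pp.Se (fun x q => ¬ Nat.Coprime x q)‖) = _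
      ring
    rw [u1] at s1
    have v2 := mul_le_mul_of_nonneg_left s2 hmm
    have v3 := mul_le_mul_of_nonneg_left s3 hmm
    have v4 := mul_le_mul_of_nonneg_left s4 hmm
    have v5 := s5 (fun _ _ => True)
    have v6 := s5 (fun x q => ¬ Nat.Coprime x q)
    have w1 := hN.a1
    have w2 := hN.a2
    have w3 := hN.a3
    have w4 := hN.a4
    have w5 := hN.a5
    have w6 := hN.a6
    have w7 := hN.a7
    have w8 := hN.a8
    rw [mul_add (6400 * Real.exp ((1 + 21 / 10000000) * L - m) * Real.exp x * Real.exp m * Real.exp (L / 1000000) ^ 2),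
      mul_add (5 * Real.exp m)] at v4
    rw [mul_add (1100 : ℝ), mul_add (5 * Real.exp m)] at v3
    rw [mul_add (1100 * Real.exp (L / 1000000)), mul_add (1100 * Real.exp (L / 1000000)), mul_add (1100 * Real.exp (L / 1000000)),
      mul_add (5 * Real.exp m), mul_add (5 * Real.exp m), mul_add (5 * Real.exp m)] at v2
    have hA0 : 0 ≤ A := (Real.exp_pos _).le
    have hB0 : 0 ≤ B := (Real.exp_pos _).le
    linarith
  have hgoal : ‖pp.S al‖ ≤ Real.exp (L * (1 + 6 / 1000000)) * Real.exp (x * (-(1 / 4))) + Real.exp (L * (1 - 3 / 1000)) := by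
    refine (pow_le_pow_iff_left₀ (norm_nonneg _) (by positivity) two_ne_zero).1 (hAB.trans ?_)
    have e1 : (Real.exp (L * (1 + 6 / 1000000)) * Real.exp (x * (-(1 / 4)))) ^ 2 = A := by
      rw [hA, ← Real.exp_add, ← Real.exp_nat_mul]
      congr 1
      push_cast
      ring
    have e2 : (Real.exp (L * (1 - 3 / 1000))) ^ 2 = B := by
      rw [hB, ← Real.exp_nat_mul]
      congr 1
      push_cast
      ring
    rw [add_sq, e1, e2]
    have : 0 ≤ 2 * (Real.exp (L * (1 + 6 / 1000000)) * Real.exp (x * (-(1 / 4)))) * Real.exp (L * (1 - 3 / 1000)) := by positivity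
    linarith
  rw [← Real.exp_mul x]
  exact hgoal

end Pool.Agent.Helper5.AP
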